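import Pool.Agent.Helper69.Riesz.StereoC

/-!
# Riesz energy on spheres: closed forms (module CONST)

The surface area of the sphere and the continuous Riesz energy in terms of Gamma values.
-/

set_option autoImplicit false
open MeasureTheory Set Filter Topology
open scoped ENNReal NNReal

namespace Helper23.Riesz

theorem omega_eq {d : ℕ} (hd : 1 ≤ d) :
    omega d = 2 * Real.pi ^ (((d:ℝ) + 1) / 2) / Real.Gamma (((d:ℝ) + 1) / 2) := by
  have h1 := toSphere_univ_eq_ofReal hd
  have := nontrivial_E d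
  have hd0 : (0:ℝ) < ((d:ℝ) + 1) / 2 := by positivity
  have hG := Real.Gamma_pos_of_pos hd0
  rw [Measure.toSphere_apply_univ, EuclideanSpace.volume_ball] at h1
  simp only [ENNReal.ofReal_one, one_pow, one_mul, Fintype.card_fin, finrank_euclideanSpace] at h1
  have h2 : ((d + 1 : ℕ) : ℝ≥0∞) = ENNReal.ofReal ((d:ℝ) + 1) := by
    rw [← ENNReal.ofReal_natCast]; push_cast; rfl
  rw [h2, ← ENNReal.ofReal_mul (by positivity)] at h1
  have h3 : 0 ≤ ((d:ℝ) + 1) * (√Real.pi ^ (d + 1) / Real.Gamma (((d + 1 : ℕ) : ℝ) / 2 + 1)) := by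
    have : 0 < Real.Gamma (((d + 1 : ℕ) : ℝ) / 2 + 1) := Real.Gamma_pos_of_pos (by positivity)
    positivity
  have h4 := (ENNReal.ofReal_eq_ofReal_iff h3 (omega_pos hd).le).1 h1
  change _ = omega d at h4
  rw [← h4]
  push_cast
  rw [Real.Gamma_add_one hd0.ne']
  have h5 : √Real.pi ^ (d + 1) = Real.pi ^ (((d:ℝ) + 1) / 2) := by
    rw [Real.sqrt_eq_rpow, ← Real.rpow_natCast, ← Real.rpow_mul Real.pi_pos.le]
    congr 1
    push_cast
    ring
  rw [h5]
  field_simp

/-- the Gamma integral as a lower integral -/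
lemma lintegral_gamma {a r : ℝ} (ha : 0 < a) (hr : 0 < r) :
    ∫⁻ t in Ioi (0:ℝ), ENNReal.ofReal (t ^ (a-1) * Real.exp (-(r*t))) =
      ENNReal.ofReal ((1/r)^a * Real.Gamma a) := by
  have h1 := Real.integral_rpow_mul_exp_neg_mul_Ioi ha hr
  rw [← h1]
  have hint : IntegrableOn (fun t : ℝ => t ^ (a-1) * Real.exp (-(r*t))) (Ioi 0) := by
    by_contra hcon
    rw [integral_undef hcon] at h1
    have : 0 < (1/r)^a * Real.Gamma a := by
      have := Real.Gamma_pos_of_pos ha
      positivity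
    linarith
  refine (ofReal_integral_eq_lintegral_ofReal hint ?_).symm
  refine (ae_restrict_iff' measurableSet_Ioi).2 (Eventually.of_forall fun t ht => ?_)
  have : (0:ℝ) < t := ht
  positivity

/-- the Gaussian integral as a lower integral -/
lemma lintegral_gauss (d : ℕ) {t : ℝ} (ht : 0 < t) :
    ∫⁻ y : R d, ENNReal.ofReal (Real.exp (-(t * ‖y‖ ^ 2))) =
      ENNReal.ofReal ((Real.pi / t) ^ ((d:ℝ) / 2)) := by
  have h1 := GaussianFourier.integral_rexp_neg_mul_sq_norm (V := R d) ht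
  rw [finrank_euclideanSpace, Fintype.card_fin] at h1
  rw [← h1]
  have hint : Integrable (fun y : R d => Real.exp (-t * ‖y‖ ^ 2)) := by
    by_contra hcon
    rw [integral_undef hcon] at h1
    have : 0 < (Real.pi / t) ^ ((d:ℝ) / 2) := by
      have := Real.pi_pos
      positivity
    linarith
  rw [ofReal_integral_eq_lintegral_ofReal hint (Eventually.of_forall fun y => by positivity)]
  simp only [neg_mul]

theorem lintegral_one_add_norm_sq (d : ℕ) {b : ℝ} (hb : (d:ℝ) / 2 < b) :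
    ∫⁻ y : R d, ENNReal.ofReal ((1 + ‖y‖ ^ 2) ^ (-b)) =
      ENNReal.ofReal (Real.pi ^ ((d:ℝ)/2) * Real.Gamma (b - d / 2) / Real.Gamma b) := by
  have hd0 : (0:ℝ) ≤ d / 2 := by positivity
  have hb0 : 0 < b := lt_of_le_of_lt hd0 hb
  have hG := Real.Gamma_pos_of_pos hb0
  have hG2 := Real.Gamma_pos_of_pos (show 0 < b - (d:ℝ)/2 by linarith)
  have hpi := Real.pi_pos
  have key : ENNReal.ofReal (Real.Gamma b) * ∫⁻ y : R d, ENNReal.ofReal ((1 + ‖y‖ ^ 2) ^ (-b)) =
      ENNReal.ofReal (Real.pi ^ ((d:ℝ)/2) * Real.Gamma (b - d / 2)) := by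
    rw [← lintegral_const_mul' _ _ ENNReal.ofReal_ne_top]
    have e1 : ∀ y : R d, ENNReal.ofReal (Real.Gamma b) * ENNReal.ofReal ((1 + ‖y‖ ^ 2) ^ (-b)) =
        ∫⁻ t in Ioi (0:ℝ), ENNReal.ofReal (t ^ (b-1) * Real.exp (-((1 + ‖y‖ ^ 2)*t))) := by
      intro y
      have hy : (0:ℝ) < 1 + ‖y‖ ^ 2 := by positivity
      rw [lintegral_gamma hb0 hy, ← ENNReal.ofReal_mul hG.le, mul_comm, one_div,
        Real.rpow_neg hy.le, Real.inv_rpow hy.le]
    simp only [e1]
    rw [lintegral_lintegral_swap]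
    · have e2 : ∀ t ∈ Ioi (0:ℝ), ∫⁻ y : R d, ENNReal.ofReal
          (t ^ (b-1) * Real.exp (-((1 + ‖y‖ ^ 2)*t))) =
          ENNReal.ofReal (Real.pi ^ ((d:ℝ)/2)) *
            ENNReal.ofReal (t ^ ((b - d/2) - 1) * Real.exp (-(1*t))) := by
        intro t ht
        have ht0 : (0:ℝ) < t := ht
        have e3 : ∀ y : R d, ENNReal.ofReal (t ^ (b-1) * Real.exp (-((1 + ‖y‖ ^ 2)*t))) =
            ENNReal.ofReal (t ^ (b-1) * Real.exp (-t)) *
              ENNReal.ofReal (Real.exp (-(t * ‖y‖ ^ 2))) := by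
          intro y
          rw [← ENNReal.ofReal_mul (by positivity)]
          congr 1
          rw [mul_assoc, ← Real.exp_add]
          congr 2
          ring
        simp only [e3]
        rw [lintegral_const_mul' _ _ ENNReal.ofReal_ne_top, lintegral_gauss d ht0,
          ← ENNReal.ofReal_mul (by positivity), ← ENNReal.ofReal_mul (by positivity)]
        congr 1
        have e4 : t ^ (b - (d:ℝ)/2 - 1) = t ^ (b-1) / t ^ ((d:ℝ)/2) := by
          rw [← Real.rpow_sub ht0]
          congr 1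
          ring
        rw [Real.div_rpow hpi.le ht0.le, e4, one_mul]
        ring
      rw [setLIntegral_congr_fun measurableSet_Ioi e2,
        lintegral_const_mul' _ _ ENNReal.ofReal_ne_top,
        lintegral_gamma (show 0 < b - (d:ℝ)/2 by linarith) one_pos,
        ← ENNReal.ofReal_mul (by positivity)]
      congr 1
      simp
    · apply Measurable.aemeasurable
      unfold Function.uncurry
      fun_prop
  have h0 : ENNReal.ofReal (Real.Gamma b) ≠ 0 := by
    simpa using hG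
  have h1 : ∫⁻ y : R d, ENNReal.ofReal ((1 + ‖y‖ ^ 2) ^ (-b)) =
      ENNReal.ofReal (Real.pi ^ ((d:ℝ)/2) * Real.Gamma (b - d / 2)) / ENNReal.ofReal (Real.Gamma b) := by
    exact (ENNReal.eq_div_iff h0 ENNReal.ofReal_ne_top).2 key
  rw [h1, ← ENNReal.ofReal_div_of_pos hG]

/-- the normalised surface measure is the push-forward of `λ^d dy / ω` -/
theorem sig_eq_map {d : ℕ} (hd : 1 ≤ d) :
    sig d = ENNReal.ofReal (1 / omega d) •
      ((volume : Measure (R d)).withDensity (fun y => ENNReal.ofReal (lam y ^ d))).map Th := by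
  ext A hA
  rw [Measure.smul_apply, smul_eq_mul, measurableEmbedding_Th.map_apply,
    withDensity_apply _ (measurableEmbedding_Th.measurable hA),
    ← sig_Th hd _ (measurableEmbedding_Th.measurable hA), image_preimage_eq_inter_range, range_Th,
    ← Set.sdiff_eq, measure_sdiff_null (sig_singleton hd _)]

theorem lintegral_sig {d : ℕ} (hd : 1 ≤ d) (f : S d → ℝ≥0∞) (hf : Measurable f) :
    ∫⁻ x, f x ∂(sig d) = ENNReal.ofReal (1 / omega d) *
      ∫⁻ y : R d, ENNReal.ofReal (lam y ^ d) * f (Th y) := by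
  rw [sig_eq_map hd, lintegral_smul_measure, measurableEmbedding_Th.lintegral_map, smul_eq_mul,
    lintegral_withDensity_eq_lintegral_mul]
  · rfl
  · exact (continuous_lam.pow d).measurable.ennreal_ofReal
  · exact hf.comp measurableEmbedding_Th.measurable

theorem dist_north_Th_sq {d : ℕ} (y : R d) : dist (north d) (Th y) ^ 2 = 2 * lam y := by
  rw [Subtype.dist_eq, dist_eq_norm, norm_sq_E]
  have e1 : ∀ k : Fin d, ((north d : E d) - Th y) k.castSucc = - (lam y * y k) := by
    intro k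
    have : ((north d : E d) - Th y) k.castSucc =
      (north d : E d) k.castSucc - ThE y k.castSucc := rfl
    rw [this, ThE_castSucc]
    simp [north, (Fin.castSucc_lt_last k).ne]
  have e2 : ((north d : E d) - Th y) (Fin.last d) = lam y := by
    have : ((north d : E d) - Th y) (Fin.last d) =
      (north d : E d) (Fin.last d) - ThE y (Fin.last d) := rfl
    rw [this, ThE_last, north_last]
    ring
  simp only [e1, e2]
  have h1 := lam_mul y
  rw [norm_sq_R] at h1
  have h2 : ∑ k : Fin d, (-(lam y * y k)) ^ 2 = lam y ^ 2 * ∑ k, y k ^ 2 := by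
    rw [Finset.mul_sum]
    exact Finset.sum_congr rfl fun k _ => by ring
  rw [h2]
  calc lam y ^ 2 * ∑ k, y k ^ 2 + lam y ^ 2 = lam y * (lam y * (1 + ∑ k, y k ^ 2)) := by ring
    _ = 2 * lam y := by rw [h1]; ring

theorem V_eq {d : ℕ} (hd : 1 ≤ d) {s : ℝ} (hs : s < d) :
    V s d = (2:ℝ) ^ ((d:ℝ) - s - 1) * Real.Gamma (((d:ℝ) + 1) / 2)
              * Real.Gamma (((d:ℝ) - s) / 2)
              / (Real.sqrt Real.pi * Real.Gamma ((d:ℝ) - s / 2)) := by
  have hω := omega_pos hd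
  have hb : (d:ℝ) / 2 < (d:ℝ) - s / 2 := by linarith
  have hb0 : (0:ℝ) < (d:ℝ) - s / 2 := lt_of_le_of_lt (by positivity) hb
  have hG1 := Real.Gamma_pos_of_pos hb0
  have hG2 := Real.Gamma_pos_of_pos (show (0:ℝ) < ((d:ℝ) - s) / 2 by linarith)
  have hG3 := Real.Gamma_pos_of_pos (show (0:ℝ) < ((d:ℝ) + 1) / 2 by positivity)
  have hpi := Real.pi_pos
  unfold V K
  rw [← zonal (fun r => r ^ (-s)) (north d)]
  have hmeas : Measurable (fun y : S d => dist (north d) y ^ (-s)) :=
    (measurable_const.dist measurable_id).pow_const _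
  rw [integral_eq_lintegral_of_nonneg_ae (Eventually.of_forall fun y => by positivity)
    hmeas.aestronglyMeasurable, lintegral_sig hd _ hmeas.ennreal_ofReal]
  have e1 : ∀ y : R d, ENNReal.ofReal (lam y ^ d) * ENNReal.ofReal (dist (north d) (Th y) ^ (-s)) =
      ENNReal.ofReal (2 ^ ((d:ℝ) - s)) * ENNReal.ofReal ((1 + ‖y‖ ^ 2) ^ (-((d:ℝ) - s / 2))) := by
    intro y
    have hl := lam_pos y
    have hy : (0:ℝ) < 1 + ‖y‖ ^ 2 := by positivity
    rw [← ENNReal.ofReal_mul (by positivity), ← ENNReal.ofReal_mul (by positivity)]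
    congr 1
    have h1 : dist (north d) (Th y) ^ (-s) = (2 * lam y) ^ (-s / 2) := by
      rw [← dist_north_Th_sq, ← Real.rpow_natCast, ← Real.rpow_mul dist_nonneg]
      congr 1
      push_cast
      ring
    rw [h1, Real.mul_rpow (by norm_num) hl.le, ← Real.rpow_natCast, lam,
      Real.div_rpow (by norm_num) hy.le, Real.div_rpow (by norm_num) hy.le]
    have h2 : (2:ℝ) ^ ((d:ℝ) - s) = 2 ^ (d:ℝ) * (2 ^ (-s/2) * 2 ^ (-s/2)) := by
      rw [← Real.rpow_add (by norm_num), ← Real.rpow_add (by norm_num)]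
      congr 1
      ring
    have h3 : (1 + ‖y‖ ^ 2) ^ (-((d:ℝ) - s / 2)) =
        1 / ((1 + ‖y‖ ^ 2) ^ (d:ℝ) * (1 + ‖y‖ ^ 2) ^ (-s/2)) := by
      rw [← Real.rpow_add hy, one_div, ← Real.rpow_neg hy.le]
      congr 1
      ring
    rw [h2, h3]
    have := Real.rpow_pos_of_pos hy (d:ℝ)
    have := Real.rpow_pos_of_pos hy (-s/2)
    field_simp
  simp only [e1]
  rw [lintegral_const_mul' _ _ ENNReal.ofReal_ne_top, lintegral_one_add_norm_sq d hb,
    ← ENNReal.ofReal_mul (by positivity)]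
  rw [show (d:ℝ) - s/2 - d/2 = ((d:ℝ) - s)/2 by ring]
  rw [← ENNReal.ofReal_mul (by positivity), ENNReal.toReal_ofReal (by positivity), omega_eq hd]
  have h4 : (2:ℝ) ^ ((d:ℝ) - s) = 2 ^ ((d:ℝ) - s - 1) * 2 := by
    rw [← Real.rpow_add_one (by norm_num)]
    congr 1
    ring
  have h5 : Real.pi ^ (((d:ℝ) + 1) / 2) = Real.pi ^ ((d:ℝ)/2) * √Real.pi := by
    rw [Real.sqrt_eq_rpow, ← Real.rpow_add hpi]
    congr 1
    ring
  rw [h4, h5]
  have := Real.rpow_pos_of_pos hpi ((d:ℝ)/2)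
  have : 0 < √Real.pi := Real.sqrt_pos.2 hpi
  field_simp

end Helper23.Riesz
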