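import Pool.Agent.Helper94.Riesz.Defs2

/-!
# Riesz energy on spheres: the lower bound of Hardin and Saff (module HS_LOWER)

One small cell, a Haar random rotation of the configuration and the convexity of `t ^ (1 + s/d)`.
-/

set_option autoImplicit false
open MeasureTheory Set Filter Topology
open scoped ENNReal NNReal

namespace Helper23.Riesz

namespace HSLow

lemma dist_Th_le {d : ℕ} (x y : R d) : dist (Th x) (Th y) ≤ 2 * dist x y := by
  have h1 := dist_Th_sq x y
  have h2 := lam_le_two x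
  have h3 := lam_le_two y
  have h4 := lam_pos x
  have h5 := lam_pos y
  have h6 : lam x * lam y ≤ 4 := by nlinarith
  have h7 : dist (Th x) (Th y) ^ 2 ≤ (2 * dist x y) ^ 2 := by
    rw [h1]
    nlinarith [sq_nonneg (dist x y)]
  exact (sq_le_sq₀ dist_nonneg (by positivity)).1 h7

/-- a configuration inside the image of a small cube -/
lemma cell_energy {d : ℕ} {s : ℝ} (hs : 0 < s) {κ : ℝ} (hκ : 0 < κ) (Z : Finset (S d))
    (hZ : ∀ z ∈ Z, z ∈ Th '' (cube (0 : R d) κ)) :
    (2 * κ) ^ (-s) * Ecube s d Z.card ≤ en s Z := by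
  classical
  set φ : S d → R d := fun z => κ⁻¹ • Function.invFun Th z with hφ
  have hinv : ∀ y : R d, Function.invFun Th (Th y) = y :=
    Function.leftInverse_invFun injective_Th
  have hd1 : ∀ z ∈ Z, ∀ z' ∈ Z, dist z z' ≤ 2 * κ * dist (φ z) (φ z') := by
    intro z hz z' hz'
    obtain ⟨y, hy, rfl⟩ := hZ z hz
    obtain ⟨y', hy', rfl⟩ := hZ z' hz'
    simp only [hφ, hinv, dist_smul₀, norm_inv, Real.norm_eq_abs, abs_of_pos hκ]
    have := dist_Th_le y y'
    calc dist (Th y) (Th y') ≤ 2 * dist y y' := this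
      _ = 2 * κ * (κ⁻¹ * dist y y') := by field_simp
  have hinj : Set.InjOn φ Z := by
    intro z hz z' hz' h
    have h1 := hd1 z hz z' hz'
    rw [h, dist_self, mul_zero] at h1
    exact dist_le_zero.1 h1
  have hcard : (Z.image φ).card = Z.card := Finset.card_image_of_injOn hinj
  have hcube : ∀ x ∈ Z.image φ, x ∈ cube (0 : R d) 1 := by
    intro x hx
    obtain ⟨z, hz, rfl⟩ := Finset.mem_image.1 hx
    obtain ⟨y, hy, rfl⟩ := hZ z hz
    intro k
    have h1 := hy k
    simp only [PiLp.zero_apply, zero_add] at h1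
    simp only [hφ, hinv, PiLp.smul_apply, smul_eq_mul, PiLp.zero_apply, zero_add]
    constructor
    · have := h1.1
      positivity
    · rw [inv_mul_le_iff₀ hκ]
      linarith [h1.2]
  have h1 := Ecube_le s (Z.image φ) hcube
  rw [hcard] at h1
  have h2 : (0:ℝ) ≤ (2 * κ) ^ (-s) := by positivity
  refine (mul_le_mul_of_nonneg_left h1 h2).trans ?_
  rw [enR_eq hs.ne', en_eq hs.ne', Finset.sum_image hinj, Finset.mul_sum]
  refine Finset.sum_le_sum fun z hz => ?_
  rw [Finset.sum_image hinj, Finset.mul_sum]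
  refine Finset.sum_le_sum fun z' hz' => ?_
  unfold K
  by_cases h : z = z'
  · subst h
    rw [dist_self, dist_self, Real.zero_rpow (by simpa using hs.ne'), mul_zero]
  · rw [← Real.mul_rpow (by positivity) dist_nonneg]
    exact Real.rpow_le_rpow_of_nonpos (dist_pos.2 h) (hd1 z hz z' hz') (by linarith)

lemma en_image_rot {d : ℕ} {s : ℝ} (hs : s ≠ 0) (g : E d ≃ₗᵢ[ℝ] E d) (B : Finset (S d)) :
    open Classical in en s (B.image (rot g)) = en s B := by
  classical
  have hinj : Set.InjOn (rot g) (B : Set (S d)) := ((rotH g).injective).injOn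
  rw [en_eq hs, en_eq hs, Finset.sum_image hinj]
  refine Finset.sum_congr rfl fun x _ => ?_
  rw [Finset.sum_image hinj]
  refine Finset.sum_congr rfl fun y _ => ?_
  unfold K
  rw [rot_dist]

lemma measurableSet_cube {d : ℕ} (a : R d) (κ : ℝ) : MeasurableSet (cube a κ) := by
  have : cube a κ = ⋂ k, {x : R d | a k ≤ x k ∧ x k ≤ a k + κ} := by
    ext x; simp [cube]
  rw [this]
  refine MeasurableSet.iInter fun k => ?_
  have hk : Measurable (fun x : R d => x k) := by fun_prop
  exact (measurableSet_le measurable_const hk).inter (measurableSet_le hk measurable_const)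

theorem cell_bound {d : ℕ} {s : ℝ} (hs : 0 < s) {p : ℝ} (hp : 1 ≤ p) {c0 C' κ : ℝ} (hκ : 0 < κ)
    (hc0 : 0 ≤ c0) (hE : ∀ n : ℕ, c0 * (n:ℝ) ^ p - C' ≤ Ecube s d n)
    (Y : Finset (S d)) (hY : Y.Nonempty) (hσ : 0 < (sig d).real (Th '' (cube (0 : R d) κ))) :
    (2 * κ) ^ (-s) * (c0 * (Y.card * (sig d).real (Th '' (cube (0 : R d) κ))) ^ p - C') ≤
      (sig d).real (Th '' (cube (0 : R d) κ)) * en s Y := by
  classical
  obtain ⟨Ω, mΩ, μ, a, hμ, hmeas, hmap⟩ := exists_haar d
  set A : Set (S d) := Th '' (cube (0 : R d) κ) with hA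
  have hAm : MeasurableSet A := measurableEmbedding_Th.measurableSet_image.2 (measurableSet_cube _ _)
  set σ : ℝ := (sig d).real A with hσdef
  have hax : ∀ x : S d, Measurable (fun ω => rot (a ω) x) := fun x =>
    hmeas.comp (measurable_id.prodMk measurable_const)
  set ind : Ω → S d → ℝ := fun ω x => A.indicator (fun _ => (1:ℝ)) (rot (a ω) x) with hind
  have hindm : ∀ x, Measurable (fun ω => ind ω x) := fun x =>
    (measurable_const.indicator hAm).comp (hax x)
  have hindi : ∀ x, Integrable (fun ω => ind ω x) μ := fun x => by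
    refine Integrable.of_bound (hindm x).aestronglyMeasurable 1 (Eventually.of_forall fun ω => ?_)
    simp only [hind]
    by_cases h : rot (a ω) x ∈ A <;> simp [h]
  have hint : ∀ x, ∫ ω, ind ω x ∂μ = σ := by
    intro x
    have h1 : ∫ ω, ind ω x ∂μ = ∫ z, A.indicator (fun _ => (1:ℝ)) z ∂(μ.map (fun ω => rot (a ω) x)) :=
      (integral_map (hax x).aemeasurable
        (measurable_const.indicator hAm).aestronglyMeasurable).symm
    rw [h1, hmap x, integral_indicator_const _ hAm]
    simp [hσdef]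
  -- the number of points in the cell
  set n : Ω → ℝ := fun ω => ∑ x ∈ Y, ind ω x with hn
  set f : Ω → ℝ := fun ω => ∑ x ∈ Y, ind ω x * ∑ y ∈ Y, K s x y with hf
  have hni : Integrable n μ := integrable_finsetSum _ fun x _ => hindi x
  have hfi : Integrable f μ := integrable_finsetSum _ fun x _ => (hindi x).mul_const _
  have hnint : ∫ ω, n ω ∂μ = Y.card * σ := by
    simp only [hn]
    rw [integral_finsetSum _ fun x _ => hindi x]
    simp [hint]
  have hfint : ∫ ω, f ω ∂μ = σ * en s Y := by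
    simp only [hf]
    rw [integral_finsetSum _ fun x _ => (hindi x).mul_const _, en_eq hs.ne', Finset.mul_sum]
    refine Finset.sum_congr rfl fun x _ => ?_
    rw [integral_mul_const, hint]
  set m : ℝ := Y.card * σ with hm
  have hm0 : 0 < m := by
    have : (0:ℝ) < Y.card := by exact_mod_cast hY.card_pos
    positivity
  have hκs : (0:ℝ) ≤ (2 * κ) ^ (-s) := by positivity
  -- pointwise bound
  have hpt : ∀ ω, (2 * κ) ^ (-s) * (c0 * (m ^ p * (1 + p * (n ω / m - 1))) - C') ≤ f ω := by
    intro ω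
    set B : Finset (S d) := Y.filter (fun x => rot (a ω) x ∈ A) with hB
    have hnB : n ω = B.card := by
      simp only [hn, hind, Set.indicator_apply, hB]
      rw [Finset.card_filter]
      push_cast
      rfl
    have h1 := cell_energy hs hκ (B.image (rot (a ω))) (by
      intro z hz
      obtain ⟨x, hx, rfl⟩ := Finset.mem_image.1 hz
      exact (Finset.mem_filter.1 hx).2)
    have hri : Function.Injective (rot (a ω)) := (rotH (a ω)).injective
    rw [Finset.card_image_of_injective _ hri, en_image_rot hs.ne'] at h1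
    have h2 : en s B ≤ f ω := by
      rw [en_eq hs.ne']
      simp only [hf, hind, Set.indicator_apply, ite_mul, one_mul, zero_mul]
      rw [← Finset.sum_filter]
      refine Finset.sum_le_sum fun x _ => ?_
      exact Finset.sum_le_sum_of_subset_of_nonneg (Finset.filter_subset _ _)
        fun y _ _ => K_nonneg s x y
    refine le_trans ?_ (h1.trans h2)
    refine mul_le_mul_of_nonneg_left ?_ hκs
    refine le_trans ?_ (hE B.card)
    rw [← hnB]
    have hn0 : 0 ≤ n ω := by rw [hnB]; positivity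
    have h3 : m ^ p * (1 + p * (n ω / m - 1)) ≤ n ω ^ p := by
      have h4 := one_add_mul_self_le_rpow_one_add (s := n ω / m - 1) (by
        have : 0 ≤ n ω / m := by positivity
        linarith) hp
      have h5 : 1 + (n ω / m - 1) = n ω / m := by ring
      rw [h5, Real.div_rpow hn0 hm0.le] at h4
      have h6 : 0 < m ^ p := Real.rpow_pos_of_pos hm0 p
      calc m ^ p * (1 + p * (n ω / m - 1)) ≤ m ^ p * (n ω ^ p / m ^ p) :=
            mul_le_mul_of_nonneg_left h4 h6.le
        _ = n ω ^ p := by field_simp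
    have := mul_le_mul_of_nonneg_left h3 hc0
    linarith
  have hI : Integrable (fun ω => (2 * κ) ^ (-s) * (c0 * (m ^ p * (1 + p * (n ω / m - 1))) - C')) μ := by
    refine Integrable.const_mul ?_ _
    refine Integrable.sub ?_ (integrable_const _)
    refine Integrable.const_mul ?_ _
    refine Integrable.const_mul ?_ _
    refine (integrable_const _).add ?_
    refine Integrable.const_mul ?_ _
    exact (hni.div_const m).sub (integrable_const _)
  have h7 := integral_mono hI hfi hpt
  rw [hfint] at h7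
  refine le_trans (le_of_eq ?_) h7
  rw [integral_const_mul, integral_sub, integral_const_mul, integral_const_mul, integral_add,
    integral_const_mul, integral_sub, integral_div, hnint]
  · simp only [integral_const, probReal_univ, smul_eq_mul, one_mul]
    rw [div_self hm0.ne']
    ring
  · exact hni.div_const m
  · exact integrable_const _
  · exact integrable_const _
  · exact Integrable.const_mul ((hni.div_const m).sub (integrable_const _)) _
  · exact Integrable.const_mul (Integrable.const_mul ((integrable_const _).add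
      (Integrable.const_mul ((hni.div_const m).sub (integrable_const _)) _)) _) _
  · exact integrable_const _

/-- the measure of the image of a small cube -/
lemma sig_cube_ge {d : ℕ} (hd : 1 ≤ d) {κ : ℝ} (hκ : 0 < κ) :
    (2 / (1 + d * κ ^ 2) * κ) ^ d / omega d ≤ (sig d).real (Th '' (cube (0 : R d) κ)) := by
  have := isProbabilityMeasure_sig d
  have hω := omega_pos hd
  have hl : ∀ y ∈ cube (0 : R d) κ, 2 / (1 + d * κ ^ 2) ≤ lam y := by
    intro y hy
    have h1 : ‖y‖ ^ 2 ≤ d * κ ^ 2 := by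
      rw [norm_sq_R]
      calc ∑ k, y k ^ 2 ≤ ∑ _k : Fin d, κ ^ 2 := by
            refine Finset.sum_le_sum fun k _ => ?_
            have h2 := hy k
            simp only [PiLp.zero_apply, zero_add] at h2
            exact pow_le_pow_left₀ h2.1 h2.2 2
        _ = d * κ ^ 2 := by simp
    unfold lam
    gcongr
  have hvol : (volume : Measure (R d)) (cube (0 : R d) κ) = ENNReal.ofReal (κ ^ d) := by
    have h1 : cube (0 : R d) κ = (WithLp.ofLp : R d → (Fin d → ℝ)) ⁻¹' (Set.Icc 0 (fun _ => κ)) := by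
      ext x
      simp [cube, Set.mem_Icc, Pi.le_def, forall_and]
    rw [h1, (PiLp.volume_preserving_ofLp (Fin d)).measure_preimage
      measurableSet_Icc.nullMeasurableSet, Real.volume_Icc_pi]
    simp [ENNReal.ofReal_pow hκ.le]
  have h2 : ENNReal.ofReal ((2 / (1 + d * κ ^ 2) * κ) ^ d / omega d) ≤
      sig d (Th '' (cube (0 : R d) κ)) := by
    rw [sig_Th hd _ (measurableSet_cube _ _)]
    have h3 : ENNReal.ofReal ((2 / (1 + d * κ ^ 2)) ^ d) * volume (cube (0 : R d) κ) ≤
        ∫⁻ y in cube (0 : R d) κ, ENNReal.ofReal (lam y ^ d) := by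
      rw [← setLIntegral_const]
      refine setLIntegral_mono' (measurableSet_cube _ _) fun y hy => ?_
      exact ENNReal.ofReal_le_ofReal (pow_le_pow_left₀ (by positivity) (hl y hy) d)
    calc ENNReal.ofReal ((2 / (1 + d * κ ^ 2) * κ) ^ d / omega d)
        = ENNReal.ofReal (1 / omega d) *
          (ENNReal.ofReal ((2 / (1 + d * κ ^ 2)) ^ d) * volume (cube (0 : R d) κ)) := by
          rw [hvol, ← ENNReal.ofReal_mul (by positivity), ← ENNReal.ofReal_mul (by positivity)]
          congr 1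
          rw [mul_pow]
          ring
      _ ≤ _ := by gcongr
  exact (ENNReal.ofReal_le_iff_le_toReal (measure_ne_top _ _)).1 h2

lemma infinite_S {d : ℕ} (hd : 1 ≤ d) : Infinite (S d) := by
  have : Infinite (R d) := Set.infinite_univ_iff.1 ((cube_infinite hd).mono (Set.subset_univ _))
  exact Infinite.of_injective Th injective_Th

end HSLow

open HSLow in
theorem hs_lower {d : ℕ} (hd : 1 ≤ d) {s : ℝ} (hs : (d:ℝ) < s) (C : ℝ)
    (hC : Tendsto (fun N : ℕ => Ecube s d N / (N : ℝ) ^ (1 + s / d)) atTop (𝓝 C))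
    (ε : ℝ) (hε : 0 < ε) :
    ∀ᶠ N : ℕ in atTop, C * (omega d) ^ (-s / d) - ε ≤ Emin s d N / (N : ℝ) ^ (1 + s / d) := by
  have hω := omega_pos hd
  have hd0 : (0:ℝ) < d := by exact_mod_cast hd
  have hs0 : 0 < s := hd0.trans hs
  have hinf := infinite_S hd
  have hC0 : 0 ≤ C := ge_of_tendsto' hC fun N => div_nonneg (Ecube_nonneg s d N) (by positivity)
  have hEmin0 : ∀ N, 0 ≤ Emin s d N := fun N =>
    Real.sInf_nonneg (by rintro e ⟨Y, -, rfl⟩; exact en_nonneg s Y)
  rcases hC0.eq_or_lt with h0 | hCpos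
  · refine Eventually.of_forall fun N => ?_
    rw [← h0, zero_mul]
    have : 0 ≤ Emin s d N / (N : ℝ) ^ (1 + s / d) := div_nonneg (hEmin0 N) (by positivity)
    linarith
  set p : ℝ := 1 + s / d with hp
  have hp1 : 1 ≤ p := by
    have : 0 ≤ s / d := by positivity
    linarith
  -- choice of the parameter
  obtain ⟨κ, hκ0, hκC, hκ⟩ : ∃ κ : ℝ, 0 < κ ∧ κ < C ∧
      C * (omega d) ^ (-s / d) - ε / 2 ≤
        (C - κ) * ((1 / (1 + d * κ ^ 2)) ^ s * (omega d) ^ (-s / d)) := by
    have hcont : Tendsto (fun κ : ℝ => (C - κ) * ((1 / (1 + d * κ ^ 2)) ^ s * (omega d) ^ (-s / d)))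
        (𝓝 0) (𝓝 (C * (omega d) ^ (-s / d))) := by
      have h1 : ContinuousAt (fun κ : ℝ => (C - κ) * ((1 / (1 + d * κ ^ 2)) ^ s *
          (omega d) ^ (-s / d))) 0 := by
        refine (continuousAt_const.sub continuousAt_id).mul (ContinuousAt.mul ?_ continuousAt_const)
        refine ContinuousAt.rpow_const ?_ (Or.inl (by simp))
        refine continuousAt_const.div (by fun_prop) (by simp)
      have h2 := h1.tendsto
      simpa using h2
    have h3 : ∀ᶠ κ in 𝓝 (0:ℝ), C * (omega d) ^ (-s / d) - ε / 2 <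
        (C - κ) * ((1 / (1 + d * κ ^ 2)) ^ s * (omega d) ^ (-s / d)) :=
      hcont.eventually_const_lt (by linarith)
    have h4 : ∀ᶠ κ in 𝓝 (0:ℝ), κ < C := gt_mem_nhds hCpos
    obtain ⟨δ, hδ, hδ2⟩ := Metric.eventually_nhds_iff.1 (h3.and h4)
    have h5 : dist (δ / 2) 0 < δ := by
      rw [Real.dist_eq, sub_zero, abs_of_pos (by positivity)]
      linarith
    exact ⟨δ / 2, by positivity, (hδ2 h5).2, (hδ2 h5).1.le⟩
  set c0 : ℝ := C - κ with hc0
  have hc0pos : 0 < c0 := by linarith
  -- lower bound for the cube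
  obtain ⟨C', hC'0, hE⟩ : ∃ C' : ℝ, 0 ≤ C' ∧ ∀ n : ℕ, c0 * (n:ℝ) ^ p - C' ≤ Ecube s d n := by
    have h1 : ∀ᶠ n : ℕ in atTop, c0 < Ecube s d n / (n : ℝ) ^ p :=
      hC.eventually_const_lt (by linarith)
    obtain ⟨n0, hn0⟩ := eventually_atTop.1 h1
    refine ⟨c0 * (n0:ℝ) ^ p, by positivity, fun n => ?_⟩
    rcases le_or_gt n0 n with h2 | h2
    · have h3 := hn0 n h2
      rcases Nat.eq_zero_or_pos n with h4 | h4
      · subst h4
        have h5 : n0 = 0 := by omega
        subst h5
        simp only [Nat.cast_zero, sub_self]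
        exact Ecube_nonneg s d 0
      · have h5 : (0:ℝ) < (n:ℝ) ^ p := by
          have : (0:ℝ) < n := by exact_mod_cast h4
          positivity
        have h6 := (lt_div_iff₀ h5).1 h3
        have h7 : 0 ≤ c0 * (n0:ℝ) ^ p := by positivity
        linarith
    · have h3 : (n:ℝ) ^ p ≤ (n0:ℝ) ^ p := by
        refine Real.rpow_le_rpow (by positivity) (by exact_mod_cast h2.le) (by linarith)
      have h4 := mul_le_mul_of_nonneg_left h3 hc0pos.le
      have h5 := Ecube_nonneg s d n
      linarith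
  set σ : ℝ := (sig d).real (Th '' (cube (0 : R d) κ)) with hσdef
  have hσ1 := sig_cube_ge hd hκ0
  rw [← hσdef] at hσ1
  have hσ : 0 < σ := lt_of_lt_of_le (by positivity) hσ1
  -- the coefficient
  have hcoef : (1 / (1 + d * κ ^ 2)) ^ s * (omega d) ^ (-s / d) ≤ (2 * κ) ^ (-s) * σ ^ (s / d) := by
    have h1 : ((2 / (1 + d * κ ^ 2) * κ) ^ d / omega d) ^ (s / d) ≤ σ ^ (s / d) :=
      Real.rpow_le_rpow (by positivity) hσ1 (by positivity)
    have h2 := mul_le_mul_of_nonneg_left h1 (show (0:ℝ) ≤ (2 * κ) ^ (-s) by positivity)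
    refine le_trans (le_of_eq ?_) h2
    rw [Real.div_rpow (by positivity) hω.le, ← Real.rpow_natCast (2 / (1 + d * κ ^ 2) * κ) d,
      ← Real.rpow_mul (by positivity),
      mul_div_cancel₀ _ hd0.ne', show (2:ℝ) / (1 + d * κ ^ 2) * κ = (2 * κ) * (1 / (1 + d * κ ^ 2)) by
        ring, Real.mul_rpow (x := 2 * κ) (by positivity) (by positivity),
      Real.rpow_neg (x := 2 * κ) (by positivity), neg_div, Real.rpow_neg hω.le]
    have h3 : (0:ℝ) < (2 * κ) ^ s := by positivity
    rw [mul_div_assoc, ← mul_assoc, inv_mul_cancel₀ h3.ne', one_mul]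
    exact (div_eq_mul_inv _ _).symm
  -- conclusion
  have hlim : Tendsto (fun N : ℕ => (2 * κ) ^ (-s) * C' / σ / (N:ℝ) ^ p) atTop (𝓝 0) := by
    refine Tendsto.div_atTop tendsto_const_nhds ?_
    exact (tendsto_rpow_atTop (by linarith)).comp tendsto_natCast_atTop_atTop
  have hev : ∀ᶠ N : ℕ in atTop, (2 * κ) ^ (-s) * C' / σ / (N:ℝ) ^ p < ε / 2 :=
    hlim.eventually_lt_const (by positivity)
  filter_upwards [hev, eventually_gt_atTop 0] with N hN hNpos
  have hN0 : (0:ℝ) < N := by exact_mod_cast hNpos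
  have hNp : (0:ℝ) < (N:ℝ) ^ p := by positivity
  rw [le_div_iff₀ hNp]
  have hne : {e : ℝ | ∃ Y : Finset (S d), Y.card = N ∧ e = en s Y}.Nonempty := by
    obtain ⟨Y, hY⟩ := Infinite.exists_subset_card_eq (S d) N
    exact ⟨en s Y, Y, hY, rfl⟩
  refine le_csInf hne ?_
  rintro e ⟨Y, hYc, rfl⟩
  have hYne : Y.Nonempty := Finset.card_pos.1 (by rw [hYc]; exact hNpos)
  have h1 := cell_bound hs0 hp1 hκ0 hc0pos.le hE Y hYne hσ
  rw [← hσdef, hYc, Real.mul_rpow hN0.le hσ.le] at h1
  have h2 : σ ^ p = σ * σ ^ (s / d) := by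
    rw [hp, Real.rpow_add hσ, Real.rpow_one]
  rw [h2] at h1
  have h3 : (2 * κ) ^ (-s) * σ ^ (s / d) * c0 * (N:ℝ) ^ p - (2 * κ) ^ (-s) * C' / σ ≤ en s Y := by
    have h4 : σ * ((2 * κ) ^ (-s) * σ ^ (s / d) * c0 * (N:ℝ) ^ p - (2 * κ) ^ (-s) * C' / σ) ≤
        σ * en s Y := by
      refine le_trans (le_of_eq ?_) h1
      field_simp
    exact le_of_mul_le_mul_left h4 hσ
  refine le_trans ?_ h3
  have h5 := mul_le_mul_of_nonneg_left hcoef hc0pos.le
  have h6 : C * (omega d) ^ (-s / d) - ε / 2 ≤ (2 * κ) ^ (-s) * σ ^ (s / d) * c0 := by linarith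
  have h7 := mul_le_mul_of_nonneg_right h6 hNp.le
  have h8 : (2 * κ) ^ (-s) * C' / σ < ε / 2 * (N:ℝ) ^ p := (div_lt_iff₀ hNp).1 hN
  nlinarith

end Helper23.Riesz
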