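import Pool.Agent.Helper9.Riesz.Cutoff
import Pool.Agent.Helper9.Riesz.HSLower

/-!
# Riesz energy on spheres: comparison of `N` and `N'` points (module FINAL1b)
-/

set_option autoImplicit false
open MeasureTheory Set Filter Topology
open scoped ENNReal NNReal

namespace Helper23.Riesz
namespace Fin1b

variable {s : ℝ} {d : ℕ}

/-- the statement of module GEO -/
def Geo (d : ℕ) : Prop :=
  ∃ Cg : ℝ, 0 < Cg ∧ ∀ ε : ℝ, 0 < ε → ∃ b₀ : ℝ, 0 < b₀ ∧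
    ∀ b : ℝ, 0 < b → b < b₀ → ∃ B : Set (S d), MeasurableSet B ∧ 0 < (sig d).real B ∧
      (∀ r : ℝ, 0 ≤ r → (1 - ε - Cg * r / b) * (sig d).real B ≤
        (sig d).real {x | x ∈ B ∧ Metric.ball x r ⊆ B}) ∧
      ∃ t₀ : ℝ, 0 < t₀ ∧ ∀ t : ℝ, 0 < t → t < t₀ →
        ∃ (n : ℕ) (φ : Fin n → S d → S d), (∀ k, Measurable (φ k)) ∧
          (∀ k, ∀ x ∈ B, ∀ y ∈ B, t * dist x y ≤ dist (φ k x) (φ k y) ∧
            dist (φ k x) (φ k y) ≤ (1 + ε) * t * dist x y) ∧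
          (∑ k, ENNReal.ofReal (t ^ d) • (((sig d).restrict B).map (φ k)) ≤ sig d) ∧
          1 - ε ≤ n * t ^ d * (sig d).real B

/-- the statement of module KER (residual) with constant `C'` -/
def Resid (s : ℝ) (d : ℕ) (θ C C' : ℝ) : Prop :=
  ∀ (a : ℝ) (_ : 0 < a) (h w : ℝ → ℝ),
      Measurable w → (∀ v, 0 ≤ w v) →
      (∀ r : ℝ, 0 < r → IntegrableOn (fun v => w v * Real.exp (-v * r)) (Ioi 0) ∧
        r ^ (-s) * (1 - h r) = ∫ v in Ioi 0, w v * Real.exp (-v * r)) →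
      (∀ U : ℝ, 2 * a ≤ U → IntegrableOn w (Ioc 0 U) ∧
        ∫ v in Ioc 0 U, w v ≤ C * a ^ θ * U ^ (s - θ)) →
      (∀ v : ℝ, 2 * a ≤ v → w v ≤ C * a ^ θ * v ^ (s - 1 - θ)) →
      ∀ U : ℝ, 2 * a ≤ U → ∀ X : Finset (S d),
        -(C' * ((X.card : ℝ) * a ^ θ * U ^ (s - θ) + (X.card : ℝ) ^ 2 * a ^ θ * U ^ (s - θ - d))) ≤
          ∑ x ∈ X, ∑ y ∈ X, K s x y * (1 - h (dist x y)) -
            (X.card : ℝ) ^ 2 * avg2 (fun x y : S d => K s x y * (1 - h (dist x y)))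

/-- the transfer bracket -/
lemma bracket (hF : KFacts s d) {CA : ℝ} (hCA0 : 0 ≤ CA) (hCA : AvgKExp s d CA) {ρ : Measure ℝ}
    [IsProbabilityMeasure ρ] {a : ℝ} (ha : 0 < a) (hρ : ρ (Iio a) = 0) {B : Set (S d)}
    (hB : MeasurableSet B) {r β q Sg N : ℝ} (hr : 0 ≤ r) (hβ : 0 ≤ β) (hq : 0 ≤ q) (hq1 : q ≤ 1)
    (hin : (1 - β) * (sig d).real B ≤ (sig d).real {x | x ∈ B ∧ Metric.ball x r ⊆ B}) :
    (sig d).real B * Sg - q * N ^ 2 * ∫ x in B, ∫ y in B, Kh s ρ x y ∂(sig d) ∂(sig d) ≤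
      (sig d).real B * (Sg - N ^ 2 * A s d ρ + N ^ 2 * (CA * a ^ (s - d)) *
        ((1 - q) + β + Real.exp (-a * r / 2))) := by
  have h1 := double_ge hF hCA0 hCA ha hρ hB r hr
  have hA0 := A_nonneg (s := s) (d := d) ρ
  have hAM := A_le hF hCA ha hρ
  set M : ℝ := CA * a ^ (s - d) with hM
  have hM0 : 0 ≤ M := by positivity
  set σ : ℝ := (sig d).real B
  have hσ : 0 ≤ σ := measureReal_nonneg
  set I : ℝ := ∫ x in B, ∫ y in B, Kh s ρ x y ∂(sig d) ∂(sig d)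
  set e : ℝ := Real.exp (-a * r / 2) with he
  have he0 : 0 ≤ e := (Real.exp_pos _).le
  have h2 : σ * ((1 - β) * A s d ρ - M * e) ≤ I := by
    have h3 := mul_le_mul_of_nonneg_right hin hA0
    nlinarith
  have h4 : q * (σ * ((1 - β) * A s d ρ - M * e)) ≤ q * I := mul_le_mul_of_nonneg_left h2 hq
  have h5 : σ * (A s d ρ - (1 - q) * M - β * M - M * e) ≤
      q * (σ * ((1 - β) * A s d ρ - M * e)) := by
    have e1 : q * (σ * ((1 - β) * A s d ρ - M * e)) -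
        σ * (A s d ρ - (1 - q) * M - β * M - M * e) =
        σ * ((1 - q) * (M - A s d ρ) + β * (M - q * A s d ρ) + (1 - q) * (M * e)) := by ring
    have h6 : 0 ≤ (1 - q) * (M - A s d ρ) := mul_nonneg (by linarith) (by linarith)
    have h7 : q * A s d ρ ≤ A s d ρ := by nlinarith
    have h8 : 0 ≤ β * (M - q * A s d ρ) := mul_nonneg hβ (by linarith)
    have h9 : 0 ≤ (1 - q) * (M * e) := mul_nonneg (by linarith) (by positivity)
    have h10 : 0 ≤ σ * ((1 - q) * (M - A s d ρ) + β * (M - q * A s d ρ) + (1 - q) * (M * e)) :=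
      mul_nonneg hσ (by linarith)
    linarith
  have h6 := mul_le_mul_of_nonneg_left (h5.trans h4) (sq_nonneg N)
  nlinarith

lemma one_add_rpow_ge {x s : ℝ} (hx : 0 ≤ x) (hs : 0 ≤ s) : 1 - s * x ≤ (1 + x) ^ (-s) := by
  rw [Real.rpow_def_of_pos (by linarith)]
  have h1 : Real.log (1 + x) ≤ x := by
    have := Real.log_le_sub_one_of_pos (show (0:ℝ) < 1 + x by linarith)
    linarith
  have h2 := Real.add_one_le_exp (Real.log (1 + x) * -s)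
  nlinarith

lemma exists_lt_Emin (hd : 1 ≤ d) (N : ℕ) {ε : ℝ} (hε : 0 < ε) :
    ∃ X : Finset (S d), X.card = N ∧ en s X < Emin s d N + ε := by
  have := HSLow.infinite_S hd
  have hne : {e : ℝ | ∃ Y : Finset (S d), Y.card = N ∧ e = en s Y}.Nonempty := by
    obtain ⟨Y, hY⟩ := Infinite.exists_subset_card_eq (S d) N
    exact ⟨en s Y, Y, hY, rfl⟩
  obtain ⟨e, ⟨Y, h1, rfl⟩, h3⟩ := Real.lt_sInf_add_pos hne hε
  exact ⟨Y, h1, h3⟩

lemma Emin_ge (hd : 1 ≤ d) (N : ℕ) {c : ℝ} (h : ∀ Y : Finset (S d), Y.card = N → c ≤ en s Y) :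
    c ≤ Emin s d N := by
  have := HSLow.infinite_S hd
  have hne : {e : ℝ | ∃ Y : Finset (S d), Y.card = N ∧ e = en s Y}.Nonempty := by
    obtain ⟨Y, hY⟩ := Infinite.exists_subset_card_eq (S d) N
    exact ⟨en s Y, Y, hY, rfl⟩
  refine le_csInf hne ?_
  rintro e ⟨Y, hY, rfl⟩
  exact h Y hY

lemma p_le_one (hF : KFacts s d) {t : ℝ} (ht : 0 < t) {B : Set (S d)} {n : ℕ}
    {φ : Fin n → S d → S d} (hφm : ∀ k, Measurable (φ k))
    (hpos : ∑ k, ENNReal.ofReal (t ^ d) • (((sig d).restrict B).map (φ k)) ≤ sig d) :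
    n * t ^ d * (sig d).real B ≤ 1 := by
  have := hF.prob
  have h1 := hpos univ
  rw [Measure.finsetSum_apply] at h1
  have h2 : ∀ k : Fin n, (ENNReal.ofReal (t ^ d) • (((sig d).restrict B).map (φ k))) univ =
      ENNReal.ofReal (t ^ d * (sig d).real B) := by
    intro k
    rw [Measure.smul_apply, Measure.map_apply (hφm k) MeasurableSet.univ, preimage_univ,
      Measure.restrict_apply_univ, smul_eq_mul, ENNReal.ofReal_mul (by positivity),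
      ofReal_measureReal]
  simp only [h2, Finset.sum_const, Finset.card_univ, Fintype.card_fin, nsmul_eq_mul,
    measure_univ] at h1
  rw [← ENNReal.ofReal_natCast, ← ENNReal.ofReal_mul (by positivity), ENNReal.ofReal_le_one] at h1
  linarith

/-- main estimate: one source configuration against one target number -/
lemma step (hd : 1 ≤ d) (hs : 0 < s) (hF : KFacts s d) {CA C' C₀ C₁ θ Ch : ℝ}
    (hCA0 : 0 < CA) (hCA : AvgKExp s d CA) (hR : Resid s d θ Ch C')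
    {η α R1 R2 εg Cg : ℝ} (hη : 0 < η) (hα : 0 < α) (hα2 : α ≤ 1 / 2)
    (hαη : 2 * C' * α ^ θ ≤ η) (hR1 : 0 < R1) (hR2 : 0 < R2) (hεg : 0 < εg) (hCg : 0 < Cg)
    (hsmall : CA * α ^ (s - d) * (s * εg + (εg + Cg * R1 / R2) + Real.exp (-α * R1 / 2)) ≤ η)
    (hC₁ : 0 ≤ C₁) (hεC : εg * C₁ ≤ η)
    (hlow : ∀ Y : Finset (S d), -C₁ * (Y.card : ℝ) ^ (1 + s / d) ≤ en s Y - (Y.card : ℝ) ^ 2 * V s d)
    {ρ : Measure ℝ} [IsProbabilityMeasure ρ] {w : ℝ → ℝ} {N N' : ℕ} (hN : 1 ≤ N) (hN' : 1 ≤ N')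
    (hρ : ρ (Iio (α * (N:ℝ) ^ (1 / (d:ℝ)))) = 0) (hw : Measurable w) (hw0 : ∀ v, 0 ≤ w v)
    (hrep : ∀ r : ℝ, 0 < r → IntegrableOn (fun v => w v * Real.exp (-v * r)) (Ioi 0) ∧
        r ^ (-s) * (1 - cut ρ r) = ∫ v in Ioi 0, w v * Real.exp (-v * r))
    (hw1 : ∀ U : ℝ, 2 * (α * (N:ℝ) ^ (1 / (d:ℝ))) ≤ U → IntegrableOn w (Ioc 0 U) ∧
        ∫ v in Ioc 0 U, w v ≤ Ch * (α * (N:ℝ) ^ (1 / (d:ℝ))) ^ θ * U ^ (s - θ))
    (hw2 : ∀ v : ℝ, 2 * (α * (N:ℝ) ^ (1 / (d:ℝ))) ≤ v →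
      w v ≤ Ch * (α * (N:ℝ) ^ (1 / (d:ℝ))) ^ θ * v ^ (s - 1 - θ))
    (hT : Transfer s d C₀ (cut ρ))
    {B : Set (S d)} (hB : MeasurableSet B) (hB0 : 0 < (sig d).real B)
    (hin : (1 - εg - Cg * (R1 / (N:ℝ) ^ (1 / (d:ℝ))) / (R2 / (N:ℝ) ^ (1 / (d:ℝ)))) * (sig d).real B ≤
        (sig d).real {x | x ∈ B ∧ Metric.ball x (R1 / (N:ℝ) ^ (1 / (d:ℝ))) ⊆ B})
    {n : ℕ} {φ : Fin n → S d → S d} (hφm : ∀ k, Measurable (φ k))
    (hφ : ∀ k, ∀ x ∈ B, ∀ y ∈ B,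
      ((N:ℝ) ^ (1 / (d:ℝ)) / (N':ℝ) ^ (1 / (d:ℝ))) * dist x y ≤ dist (φ k x) (φ k y) ∧
      dist (φ k x) (φ k y) ≤ (1 + εg) * ((N:ℝ) ^ (1 / (d:ℝ)) / (N':ℝ) ^ (1 / (d:ℝ))) * dist x y)
    (hpos : ∑ k, ENNReal.ofReal (((N:ℝ) ^ (1 / (d:ℝ)) / (N':ℝ) ^ (1 / (d:ℝ))) ^ d) •
      (((sig d).restrict B).map (φ k)) ≤ sig d)
    (hcov : 1 - εg ≤ n * ((N:ℝ) ^ (1 / (d:ℝ)) / (N':ℝ) ^ (1 / (d:ℝ))) ^ d * (sig d).real B) :
    (Emin s d N' - (N' : ℝ) ^ 2 * V s d) / (N' : ℝ) ^ (1 + s / d) ≤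
        (Emin s d N - (N : ℝ) ^ 2 * V s d) / (N : ℝ) ^ (1 + s / d) + 4 * η +
        C₀ * ((N' : ℝ) ^ (2 * s / d) + N') / (N' : ℝ) ^ (1 + s / d) := by
  have hd0 : (0:ℝ) < d := by exact_mod_cast hd
  have hNr : (0:ℝ) < N := by exact_mod_cast hN
  have hNr' : (0:ℝ) < N' := by exact_mod_cast hN'
  set ν : ℝ := (N:ℝ) ^ (1 / (d:ℝ)) with hν
  set ν' : ℝ := (N':ℝ) ^ (1 / (d:ℝ)) with hν'
  have hν0 : 0 < ν := by positivity
  have hν0' : 0 < ν' := by positivity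
  have hNν : (N:ℝ) = ν ^ (d:ℝ) := by
    rw [hν, ← Real.rpow_mul hNr.le, one_div, inv_mul_cancel₀ hd0.ne', Real.rpow_one]
  have hNν' : (N':ℝ) = ν' ^ (d:ℝ) := by
    rw [hν', ← Real.rpow_mul hNr'.le, one_div, inv_mul_cancel₀ hd0.ne', Real.rpow_one]
  have hP : (N:ℝ) ^ (1 + s / d) = ν ^ ((d:ℝ) + s) := by
    conv_lhs => rw [hNν]
    rw [← Real.rpow_mul hν0.le]
    congr 1
    field_simp
  have hP' : (N':ℝ) ^ (1 + s / d) = ν' ^ ((d:ℝ) + s) := by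
    conv_lhs => rw [hNν']
    rw [← Real.rpow_mul hν0'.le]
    congr 1
    field_simp
  set P : ℝ := (N:ℝ) ^ (1 + s / d) with hPdef
  set P' : ℝ := (N':ℝ) ^ (1 + s / d) with hPdef'
  have hP0 : 0 < P := by positivity
  have hP0' : 0 < P' := by positivity
  set t : ℝ := ν / ν' with ht
  have ht0 : 0 < t := by positivity
  set a : ℝ := α * ν with ha
  have ha0 : 0 < a := by positivity
  set σ : ℝ := (sig d).real B with hσ
  -- the source configuration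
  obtain ⟨X, hXc, hX⟩ := exists_lt_Emin (s := s) hd N (show 0 < η * P by positivity)
  have htd : t ^ d * N' = X.card := by
    rw [hXc, ht, ← Real.rpow_natCast, Real.div_rpow hν0.le hν0'.le, ← hNν, ← hNν']
    field_simp
  have hρ0 : ρ (Iio 0) = 0 := measure_mono_null (Iio_subset_Iio ha0.le) hρ
  -- transfer
  have h1 := hT X N' hN' t ht0 htd B hB εg hεg.le n φ hφm hφ hpos
  have hbr := bracket hF hCA0.le hCA ha0 hρ hB (r := R1 / ν) (β := εg + Cg * R1 / R2)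
    (q := (1 + εg) ^ (-s)) (Sg := ∑ x ∈ X, ∑ y ∈ X, Kh s ρ x y) (N := N)
    (by positivity) (by positivity) (by positivity)
    (Real.rpow_le_one_of_one_le_of_nonpos (by linarith) (by linarith)) (by
      have e1 : Cg * (R1 / ν) / (R2 / ν) = Cg * R1 / R2 := by field_simp
      rw [e1] at hin
      rw [← sub_sub]
      exact hin)
  rw [hXc] at h1
  -- the residual part
  have h2 := hR a ha0 (cut ρ) w hw hw0 hrep hw1 hw2 ν (by rw [ha]; nlinarith) X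
  rw [avg_sub hF ha0.le hρ, hXc] at h2
  have h3 : ∑ x ∈ X, ∑ y ∈ X, K s x y * (1 - cut ρ (dist x y)) =
      en s X - ∑ x ∈ X, ∑ y ∈ X, Kh s ρ x y := by
    rw [en_eq hF.s0, ← Finset.sum_sub_distrib]
    refine Finset.sum_congr rfl fun x _ => ?_
    rw [← Finset.sum_sub_distrib]
    refine Finset.sum_congr rfl fun y _ => ?_
    simp only [Kh]
    ring
  rw [h3] at h2
  -- powers
  have e1 : (N:ℝ) * a ^ θ * ν ^ (s - θ) = α ^ θ * P := by
    rw [ha, Real.mul_rpow hα.le hν0.le, hP]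
    conv_lhs => rw [hNν]
    have : ν ^ ((d:ℝ) + s) = ν ^ (d:ℝ) * ν ^ θ * ν ^ (s - θ) := by
      rw [← Real.rpow_add hν0, ← Real.rpow_add hν0]
      congr 1
      ring
    rw [this]
    ring
  have e2 : (N:ℝ) ^ 2 * a ^ θ * ν ^ (s - θ - d) = α ^ θ * P := by
    rw [ha, Real.mul_rpow hα.le hν0.le, hP]
    conv_lhs => rw [hNν]
    have : ν ^ ((d:ℝ) + s) = ν ^ (d:ℝ) * ν ^ (d:ℝ) * ν ^ θ * ν ^ (s - θ - d) := by
      rw [← Real.rpow_add hν0, ← Real.rpow_add hν0, ← Real.rpow_add hν0]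
      congr 1
      ring
    rw [this]
    ring
  have e3 : (N:ℝ) ^ 2 * (CA * a ^ (s - d)) = CA * α ^ (s - d) * P := by
    rw [ha, Real.mul_rpow hα.le hν0.le, hP]
    conv_lhs => rw [hNν]
    have : ν ^ ((d:ℝ) + s) = ν ^ (d:ℝ) * ν ^ (d:ℝ) * ν ^ (s - d) := by
      rw [← Real.rpow_add hν0, ← Real.rpow_add hν0]
      congr 1
      ring
    rw [this]
    ring
  have e4 : -a * (R1 / ν) / 2 = -α * R1 / 2 := by
    rw [ha]
    field_simp
  rw [e1, e2] at h2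
  rw [e3, e4] at hbr
  set Sg : ℝ := ∑ x ∈ X, ∑ y ∈ X, Kh s ρ x y with hSg
  set eN : ℝ := Emin s d N - (N:ℝ) ^ 2 * V s d with heN
  -- bound for the bracket
  have h4 : Sg - (N:ℝ) ^ 2 * A s d ρ ≤ eN + 2 * (η * P) := by
    have h5 : 2 * C' * α ^ θ * P ≤ η * P := mul_le_mul_of_nonneg_right hαη hP0.le
    nlinarith
  have h6 : CA * α ^ (s - d) * P * ((1 - (1 + εg) ^ (-s)) + (εg + Cg * R1 / R2) +
      Real.exp (-α * R1 / 2)) ≤ η * P := by
    have h7 := one_add_rpow_ge hεg.le hs.le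
    have h8 : CA * α ^ (s - d) * ((1 - (1 + εg) ^ (-s)) + (εg + Cg * R1 / R2) +
      Real.exp (-α * R1 / 2)) ≤ CA * α ^ (s - d) * (s * εg + (εg + Cg * R1 / R2) +
        Real.exp (-α * R1 / 2)) := by
      refine mul_le_mul_of_nonneg_left ?_ (by positivity)
      linarith
    have h9 := mul_le_mul_of_nonneg_right (h8.trans hsmall) hP0.le
    linarith
  have h10 : σ * (Sg - (N:ℝ) ^ 2 * A s d ρ + CA * α ^ (s - d) * P *
      ((1 - (1 + εg) ^ (-s)) + (εg + Cg * R1 / R2) + Real.exp (-α * R1 / 2))) ≤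
      σ * (eN + 3 * (η * P)) :=
    mul_le_mul_of_nonneg_left (by linarith) hB0.le
  have h11 := hbr.trans h10
  have hnt : 0 ≤ (n:ℝ) * t ^ (-s) := by positivity
  have h12 := mul_le_mul_of_nonneg_left h11 hnt
  have h13 : Emin s d N' - (N' : ℝ) ^ 2 * V s d ≤
      n * t ^ (-s) * (σ * (eN + 3 * (η * P))) + C₀ * ((N' : ℝ) ^ (2 * s / d) + N') := by
    refine h1.trans ?_
    have : n * t ^ (-s) * (σ * (∑ x ∈ X, ∑ y ∈ X, K s x y * cut ρ (dist x y)) -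
        (1 + εg) ^ (-s) * (N : ℝ) ^ 2 *
          ∫ x in B, ∫ y in B, K s x y * cut ρ (dist x y) ∂(sig d) ∂(sig d)) ≤
        n * t ^ (-s) * (σ * (eN + 3 * (η * P))) := h12
    linarith
  -- normalisation
  set p : ℝ := n * t ^ d * σ with hp
  have hp1 : p ≤ 1 := p_le_one hF ht0 hφm hpos
  have hp2 : 1 - εg ≤ p := hcov
  have h14 : t ^ (-s) * P = t ^ d * P' := by
    rw [hP, hP', ht, ← Real.rpow_natCast, Real.rpow_neg (by positivity),
      Real.div_rpow hν0.le hν0'.le, Real.div_rpow hν0.le hν0'.le, Real.rpow_add hν0,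
      Real.rpow_add hν0']
    have := Real.rpow_pos_of_pos hν0 s
    have := Real.rpow_pos_of_pos hν0' s
    have := Real.rpow_pos_of_pos hν0 (d:ℝ)
    have := Real.rpow_pos_of_pos hν0' (d:ℝ)
    field_simp
  have h15 : n * t ^ (-s) * (σ * (eN + 3 * (η * P))) = p * (eN / P + 3 * η) * P' := by
    have h16 : eN + 3 * (η * P) = (eN / P + 3 * η) * P := by field_simp
    rw [h16]
    calc n * t ^ (-s) * (σ * ((eN / P + 3 * η) * P)) =
        n * σ * (eN / P + 3 * η) * (t ^ (-s) * P) := by ring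
      _ = p * (eN / P + 3 * η) * P' := by rw [h14, hp]; ring
  rw [h15] at h13
  have h17 : -C₁ ≤ eN / P := by
    rw [le_div_iff₀ hP0]
    have h18 : (N:ℝ) ^ 2 * V s d + -C₁ * P ≤ Emin s d N := by
      refine Emin_ge hd N fun Y hY => ?_
      have := hlow Y
      rw [hY] at this
      linarith
    linarith
  have h19 : p * (eN / P + 3 * η) ≤ eN / P + 4 * η := by
    have h20 : (1 - p) * (-(eN / P)) ≤ εg * C₁ := by
      have h21 : (1 - p) * (-(eN / P)) ≤ (1 - p) * C₁ :=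
        mul_le_mul_of_nonneg_left (by linarith) (by linarith)
      have h22 : (1 - p) * C₁ ≤ εg * C₁ := mul_le_mul_of_nonneg_right (by linarith) hC₁
      linarith
    have h25 : p * η ≤ η := mul_le_of_le_one_left hη.le hp1
    have h26 : p * (eN / P + 3 * η) = eN / P + (1 - p) * (-(eN / P)) + 3 * (p * η) := by ring
    rw [h26]
    linarith
  rw [div_le_iff₀ hP0']
  have h23 := mul_le_mul_of_nonneg_right h19 hP0'.le
  have h24 : (eN / P + 4 * η + C₀ * ((N' : ℝ) ^ (2 * s / d) + N') / P') * P' =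
      (eN / P + 4 * η) * P' + C₀ * ((N' : ℝ) ^ (2 * s / d) + N') := by
    field_simp
  rw [h24]
  linarith

theorem compare_of (hd : 1 ≤ d) (hs : 0 < s) (hsd : s < d) (hgeo : Geo d)
    (hres : ∀ θ C : ℝ, 0 < θ → θ ≤ s → 0 < C → ∃ C' : ℝ, 0 < C' ∧ Resid s d θ C C')
    (hKexp : ∃ C : ℝ, 0 < C ∧ AvgKExp s d C)
    (hT : ∃ C₀ : ℝ, ∀ ρ : Measure ℝ, IsProbabilityMeasure ρ → ρ (Iio 0) = 0 →
      Transfer s d C₀ (fun r => ∫ b, Real.exp (-b * r) ∂ρ))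
    (hlow : ∃ C₁ : ℝ, 0 ≤ C₁ ∧ ∀ Y : Finset (S d),
      -C₁ * (Y.card : ℝ) ^ (1 + s / d) ≤ en s Y - (Y.card : ℝ) ^ 2 * V s d)
    (ε : ℝ) (hε : 0 < ε) :
    ∃ N₀ : ℕ, ∀ N : ℕ, N₀ ≤ N → ∀ᶠ N' : ℕ in atTop,
      (Emin s d N' - (N' : ℝ) ^ 2 * V s d) / (N' : ℝ) ^ (1 + s / d) ≤
        (Emin s d N - (N : ℝ) ^ 2 * V s d) / (N : ℝ) ^ (1 + s / d) + ε := by
  have hF := kfacts hd hs hsd
  have hd0 : (0:ℝ) < d := by exact_mod_cast hd
  obtain ⟨θ, hθ, hθs, Ch, hCh, hdec⟩ := exists_h hs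
  obtain ⟨C', hC', hR⟩ := hres θ Ch hθ hθs hCh
  obtain ⟨CA, hCA0, hCA⟩ := hKexp
  obtain ⟨C₀, hT⟩ := hT
  obtain ⟨C₁, hC₁, hlow⟩ := hlow
  obtain ⟨Cg, hCg, hgeo⟩ := hgeo
  set η : ℝ := ε / 6 with hηdef
  have hη : 0 < η := by positivity
  -- the parameter `α`
  obtain ⟨α, hα, hα2, hαη⟩ : ∃ α : ℝ, 0 < α ∧ α ≤ 1 / 2 ∧ 2 * C' * α ^ θ ≤ η := by
    refine ⟨min (1/2) ((η / (2 * C')) ^ (1 / θ)), by positivity, min_le_left _ _, ?_⟩
    have h1 : (min (1/2) ((η / (2 * C')) ^ (1 / θ))) ^ θ ≤ ((η / (2 * C')) ^ (1 / θ)) ^ θ :=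
      Real.rpow_le_rpow (by positivity) (min_le_right _ _) hθ.le
    have h2 : ((η / (2 * C')) ^ (1 / θ)) ^ θ = η / (2 * C') := by
      rw [← Real.rpow_mul (by positivity), one_div_mul_cancel hθ.ne', Real.rpow_one]
    rw [h2] at h1
    calc 2 * C' * (min (1/2) ((η / (2 * C')) ^ (1 / θ))) ^ θ ≤ 2 * C' * (η / (2 * C')) :=
          mul_le_mul_of_nonneg_left h1 (by positivity)
      _ = η := by field_simp
  set M : ℝ := CA * α ^ (s - d) with hM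
  have hM0 : 0 < M := by positivity
  set R1 : ℝ := 2 * (4 * M / η) / α with hR1def
  have hR1 : 0 < R1 := by positivity
  have hexp : M * Real.exp (-α * R1 / 2) ≤ η / 4 := by
    have h1 : -α * R1 / 2 = -(4 * M / η) := by
      rw [hR1def]; field_simp
    rw [h1, Real.exp_neg]
    have h2 := Real.add_one_le_exp (4 * M / η)
    have h3 : (0:ℝ) < 4 * M / η := by positivity
    have h4 : (Real.exp (4 * M / η))⁻¹ ≤ (4 * M / η)⁻¹ := by
      apply inv_anti₀ h3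
      linarith
    calc M * (Real.exp (4 * M / η))⁻¹ ≤ M * (4 * M / η)⁻¹ := mul_le_mul_of_nonneg_left h4 hM0.le
      _ = η / 4 := by field_simp
  set R2 : ℝ := 4 * M * Cg * R1 / η with hR2def
  have hR2 : 0 < R2 := by positivity
  have hR12 : M * (Cg * R1 / R2) = η / 4 := by
    rw [hR2def]; field_simp
  set D : ℝ := 4 * M + 4 * M * s + C₁ + 1 with hD
  have hD0 : 0 < D := by positivity
  set εg : ℝ := η / D with hεgdef
  have hεg : 0 < εg := by positivity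
  have hεgD : εg * D = η := by rw [hεgdef]; field_simp
  have hb1 : M * εg ≤ η / 4 := by
    have : 0 ≤ εg * (4 * M * s + C₁ + 1) := by positivity
    nlinarith
  have hb2 : M * (s * εg) ≤ η / 4 := by
    have : 0 ≤ εg * (4 * M + C₁ + 1) := by positivity
    nlinarith
  have hb3 : εg * C₁ ≤ η := by
    have : 0 ≤ εg * (4 * M + 4 * M * s + 1) := by positivity
    nlinarith
  have hsmall : CA * α ^ (s - d) * (s * εg + (εg + Cg * R1 / R2) + Real.exp (-α * R1 / 2)) ≤ η := by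
    rw [← hM]
    nlinarith
  obtain ⟨b₀, hb₀, hgeo⟩ := hgeo εg hεg
  -- choice of `N₀`
  have hνlim : Tendsto (fun N : ℕ => (N:ℝ) ^ (1 / (d:ℝ))) atTop atTop :=
    (tendsto_rpow_atTop (by positivity)).comp tendsto_natCast_atTop_atTop
  have hblim : Tendsto (fun N : ℕ => R2 / (N:ℝ) ^ (1 / (d:ℝ))) atTop (𝓝 0) :=
    tendsto_const_nhds.div_atTop hνlim
  obtain ⟨N₀, hN₀⟩ := eventually_atTop.1 (hblim.eventually_lt_const hb₀)
  refine ⟨max N₀ 1, fun N hN => ?_⟩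
  have hN1 : 1 ≤ N := le_trans (le_max_right _ _) hN
  have hNb := hN₀ N (le_trans (le_max_left _ _) hN)
  have hNr : (0:ℝ) < N := by exact_mod_cast hN1
  have hν0 : 0 < (N:ℝ) ^ (1 / (d:ℝ)) := by positivity
  obtain ⟨B, hB, hB0, hin, t₀, ht₀, hpack⟩ := hgeo (R2 / (N:ℝ) ^ (1 / (d:ℝ))) (by positivity) hNb
  obtain ⟨ρ, w, hρp, hρ, hw, hw0, hrep, hw1, hw2⟩ :=
    hdec (α * (N:ℝ) ^ (1 / (d:ℝ))) (by positivity)
  have hρ0 : ρ (Iio 0) = 0 := measure_mono_null (Iio_subset_Iio (by positivity)) hρ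
  have hTρ := hT ρ hρp hρ0
  have htlim : Tendsto (fun N' : ℕ => (N:ℝ) ^ (1 / (d:ℝ)) / (N':ℝ) ^ (1 / (d:ℝ))) atTop (𝓝 0) :=
    tendsto_const_nhds.div_atTop hνlim
  have hClim : Tendsto (fun N' : ℕ => C₀ * ((N' : ℝ) ^ (2 * s / d) + N') / (N' : ℝ) ^ (1 + s / d))
      atTop (𝓝 0) := by
    have h1 : Tendsto (fun N' : ℕ => C₀ * ((N' : ℝ) ^ (-(1 - s / d)) + (N' : ℝ) ^ (-(s / d))))
        atTop (𝓝 (C₀ * (0 + 0))) := by
      refine Tendsto.const_mul _ (Tendsto.add ?_ ?_)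
      · refine (tendsto_rpow_neg_atTop ?_).comp tendsto_natCast_atTop_atTop
        have : s / d < 1 := (div_lt_one hd0).2 hsd
        linarith
      · exact (tendsto_rpow_neg_atTop (by positivity)).comp tendsto_natCast_atTop_atTop
    rw [add_zero, mul_zero] at h1
    refine h1.congr' ?_
    filter_upwards [eventually_gt_atTop 0] with N' hN'
    have hN'r : (0:ℝ) < N' := by exact_mod_cast hN'
    rw [mul_div_assoc, add_div]
    congr 2
    · rw [← Real.rpow_sub hN'r]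
      congr 1
      ring
    · conv_rhs => rw [← Real.rpow_one (N':ℝ), ← Real.rpow_mul hN'r.le, one_mul,
        ← Real.rpow_sub hN'r]
      congr 1
      ring
  filter_upwards [htlim.eventually_lt_const ht₀, hClim.eventually_lt_const hη,
    eventually_ge_atTop 1] with N' hN't hN'C hN'1
  have hN'r : (0:ℝ) < N' := by exact_mod_cast hN'1
  obtain ⟨n, φ, hφm, hφ, hpos, hcov⟩ := hpack _ (by positivity) hN't
  have hfin := step hd hs hF hCA0 hCA hR hη hα hα2 hαη hR1 hR2 hεg hCg hsmall hC₁ hb3 hlow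
    hN1 hN'1 hρ hw hw0 hrep hw1 hw2 hTρ hB hB0 (hin _ (by positivity)) hφm hφ hpos hcov
  linarith

/-- a bounded sequence with a comparison property converges -/
lemma tendsto_of_compare {u : ℕ → ℝ} {m M : ℝ} (hm : ∀ᶠ n in atTop, m ≤ u n)
    (hM : ∀ᶠ n in atTop, u n ≤ M)
    (h : ∀ ε : ℝ, 0 < ε → ∃ N₀ : ℕ, ∀ N : ℕ, N₀ ≤ N → ∀ᶠ N' : ℕ in atTop, u N' ≤ u N + ε) :
    ∃ C : ℝ, Tendsto u atTop (𝓝 C) := by
  have hb1 : IsBoundedUnder (· ≥ ·) atTop u := ⟨m, hm⟩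
  have hb2 : IsBoundedUnder (· ≤ ·) atTop u := ⟨M, hM⟩
  refine ⟨limsup u atTop, tendsto_of_le_liminf_of_limsup_le ?_ le_rfl hb2 hb1⟩
  refine le_of_forall_pos_le_add fun ε hε => ?_
  obtain ⟨N₀, hN₀⟩ := h ε hε
  have h1 : ∀ N, N₀ ≤ N → limsup u atTop - ε ≤ u N := by
    intro N hN
    have h2 : limsup u atTop ≤ u N + ε := limsup_le_of_le hb1.isCoboundedUnder_le (hN₀ N hN)
    linarith
  have h3 : limsup u atTop - ε ≤ liminf u atTop :=
    le_liminf_of_le hb2.isCoboundedUnder_ge (eventually_atTop.2 ⟨N₀, h1⟩)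
  linarith

theorem main_pos_of (hd : 1 ≤ d)
    (hcomp : ∀ ε : ℝ, 0 < ε → ∃ N₀ : ℕ, ∀ N : ℕ, N₀ ≤ N → ∀ᶠ N' : ℕ in atTop,
      (Emin s d N' - (N' : ℝ) ^ 2 * V s d) / (N' : ℝ) ^ (1 + s / d) ≤
        (Emin s d N - (N : ℝ) ^ 2 * V s d) / (N : ℝ) ^ (1 + s / d) + ε)
    (hlow : ∃ C₁ : ℝ, 0 ≤ C₁ ∧ ∀ Y : Finset (S d),
      -C₁ * (Y.card : ℝ) ^ (1 + s / d) ≤ en s Y - (Y.card : ℝ) ^ 2 * V s d)
    (hup : ∀ N : ℕ, Emin s d N ≤ (N : ℝ) ^ 2 * V s d) : ∃ C : ℝ,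
    Tendsto (fun N : ℕ => (Emin s d N - (N : ℝ) ^ 2 * V s d) / (N : ℝ) ^ (1 + s / d)) atTop
      (𝓝 C) := by
  obtain ⟨C₁, hC₁, hlow⟩ := hlow
  refine tendsto_of_compare (m := -C₁) (M := 0) ?_ ?_ hcomp
  · filter_upwards [eventually_gt_atTop 0] with N hN
    have hNr : (0:ℝ) < N := by exact_mod_cast hN
    rw [le_div_iff₀ (by positivity)]
    have h18 : (N:ℝ) ^ 2 * V s d + -C₁ * (N : ℝ) ^ (1 + s / d) ≤ Emin s d N := by
      refine Emin_ge hd N fun Y hY => ?_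
      have := hlow Y
      rw [hY] at this
      linarith
    linarith
  · refine Eventually.of_forall fun N => ?_
    have h1 := hup N
    exact div_nonpos_of_nonpos_of_nonneg (by linarith) (by positivity)

end Fin1b
end Helper23.Riesz
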