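import Pool.Agent.Helper23.Riesz.TransferDef
import Pool.Agent.Helper10.Riesz.KerH

/-!
# Riesz energy on spheres: the cut-off kernel (auxiliary file for module FINAL1b)

`cut ρ r = ∫ e^{-br} dρ(b)` for a probability measure `ρ` on `[a, ∞)`.
-/

set_option autoImplicit false
open MeasureTheory Set Filter Topology
open scoped ENNReal NNReal

namespace Helper23.Riesz
namespace Fin1b

variable {s : ℝ} {d : ℕ}

/-- mixture of exponentials -/
noncomputable def cut (ρ : Measure ℝ) (r : ℝ) : ℝ := ∫ b, Real.exp (-b * r) ∂ρ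

lemma cut_nonneg (ρ : Measure ℝ) (r : ℝ) : 0 ≤ cut ρ r :=
  integral_nonneg fun _ => (Real.exp_pos _).le

lemma cut_le {ρ : Measure ℝ} [IsProbabilityMeasure ρ] {a : ℝ} (hρ : ρ (Iio a) = 0) {r : ℝ}
    (hr : 0 ≤ r) : cut ρ r ≤ Real.exp (-a * r) := by
  unfold cut
  have h1 : ∀ᵐ b ∂ρ, Real.exp (-b * r) ≤ Real.exp (-a * r) := by
    have h2 : ∀ᵐ b ∂ρ, b ∉ Iio a := measure_eq_zero_iff_ae_notMem.1 hρ
    filter_upwards [h2] with b hb
    have hb' : a ≤ b := not_lt.1 hb
    apply Real.exp_le_exp.2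
    nlinarith
  calc ∫ b, Real.exp (-b * r) ∂ρ ≤ ∫ _b, Real.exp (-a * r) ∂ρ :=
        integral_mono_of_nonneg (Eventually.of_forall fun b => (Real.exp_pos _).le)
          (integrable_const _) h1
    _ = Real.exp (-a * r) := by simp

lemma cut_le_one {ρ : Measure ℝ} [IsProbabilityMeasure ρ] {a : ℝ} (ha : 0 ≤ a)
    (hρ : ρ (Iio a) = 0) {r : ℝ} (hr : 0 ≤ r) : cut ρ r ≤ 1 :=
  (cut_le hρ hr).trans (Real.exp_le_one_iff.2 (by nlinarith))

lemma measurable_cut (ρ : Measure ℝ) [IsProbabilityMeasure ρ] : Measurable (cut ρ) := by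
  unfold cut
  have h : StronglyMeasurable (fun p : ℝ × ℝ => Real.exp (-p.2 * p.1)) := by
    apply Continuous.stronglyMeasurable
    fun_prop
  exact (h.integral_prod_right (ν := ρ)).measurable

/-- the truncated kernel -/
noncomputable def Kh (s : ℝ) {d : ℕ} (ρ : Measure ℝ) (x y : S d) : ℝ := K s x y * cut ρ (dist x y)

lemma Kh_nonneg (ρ : Measure ℝ) (x y : S d) : 0 ≤ Kh s ρ x y :=
  mul_nonneg (K_nonneg s x y) (cut_nonneg _ _)

lemma measurable_Kh (ρ : Measure ℝ) [IsProbabilityMeasure ρ] :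
    Measurable (fun p : S d × S d => Kh s ρ p.1 p.2) :=
  (measurable_K s).mul ((measurable_cut ρ).comp measurable_dist)

lemma measurable_Kh_left (ρ : Measure ℝ) [IsProbabilityMeasure ρ] (x : S d) :
    Measurable (fun y : S d => Kh s ρ x y) := by
  have h2 : Measurable (fun y : S d => dist x y) := measurable_const.dist measurable_id
  unfold Kh K
  exact (h2.pow_const _).mul ((measurable_cut ρ).comp h2)

lemma Kh_le {ρ : Measure ℝ} [IsProbabilityMeasure ρ] {a : ℝ} (hρ : ρ (Iio a) = 0) (x y : S d) :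
    Kh s ρ x y ≤ K s x y * Real.exp (-a * dist x y) :=
  mul_le_mul_of_nonneg_left (cut_le hρ dist_nonneg) (K_nonneg s x y)

lemma Kh_le_K {ρ : Measure ℝ} [IsProbabilityMeasure ρ] {a : ℝ} (ha : 0 ≤ a) (hρ : ρ (Iio a) = 0)
    (x y : S d) : Kh s ρ x y ≤ K s x y := by
  have h1 := mul_le_mul_of_nonneg_left (cut_le_one ha hρ (dist_nonneg (x := x) (y := y)))
    (K_nonneg s x y)
  rwa [mul_one] at h1

lemma integrable_Kh (hF : KFacts s d) {ρ : Measure ℝ} [IsProbabilityMeasure ρ] {a : ℝ} (ha : 0 ≤ a)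
    (hρ : ρ (Iio a) = 0) (x : S d) : Integrable (fun y => Kh s ρ x y) (sig d) := by
  refine (hF.int x).mono (measurable_Kh_left ρ x).aestronglyMeasurable
    (Eventually.of_forall fun y => ?_)
  rw [Real.norm_of_nonneg (Kh_nonneg ρ x y), Real.norm_of_nonneg (K_nonneg s x y)]
  exact Kh_le_K ha hρ x y

/-- average of the truncated kernel -/
noncomputable def A (s : ℝ) (d : ℕ) (ρ : Measure ℝ) : ℝ := avg2 (fun x y : S d => Kh s ρ x y)

lemma integral_Kh (ρ : Measure ℝ) (x : S d) : ∫ y, Kh s ρ x y ∂(sig d) = A s d ρ :=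
  zonal (fun r => r ^ (-s) * cut ρ r) x

lemma A_nonneg (ρ : Measure ℝ) : 0 ≤ A s d ρ := by
  unfold A avg2
  exact integral_nonneg fun x => integral_nonneg fun y => Kh_nonneg ρ x y

lemma avg_sub (hF : KFacts s d) {ρ : Measure ℝ} [IsProbabilityMeasure ρ] {a : ℝ} (ha : 0 ≤ a)
    (hρ : ρ (Iio a) = 0) :
    avg2 (fun x y : S d => K s x y * (1 - cut ρ (dist x y))) = V s d - A s d ρ := by
  have := hF.prob
  unfold avg2
  have h1 : ∀ x : S d, ∫ y, K s x y * (1 - cut ρ (dist x y)) ∂(sig d) = V s d - A s d ρ := by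
    intro x
    rw [← hF.pot x, ← integral_Kh ρ x, ← integral_sub (hF.int x) (integrable_Kh hF ha hρ x)]
    refine integral_congr_ae (Eventually.of_forall fun y => ?_)
    simp only [Kh]
    ring
  simp [h1]

/-- the statement of `avg_K_exp` -/
def AvgKExp (s : ℝ) (d : ℕ) (C : ℝ) : Prop :=
  ∀ a : ℝ, 0 < a → ∀ (x : S d) (δ : ℝ), 0 ≤ δ →
      ∫ y in {y | δ ≤ dist x y}, K s x y * Real.exp (-a * dist x y) ∂(sig d) ≤
        C * a ^ (s - d) * Real.exp (-a * δ / 2)

lemma integrable_K_exp (hF : KFacts s d) {a : ℝ} (ha : 0 ≤ a) (x : S d) :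
    Integrable (fun y => K s x y * Real.exp (-a * dist x y)) (sig d) := by
  have hm : Measurable (fun y : S d => K s x y * Real.exp (-a * dist x y)) := by
    have h2 : Measurable (fun y : S d => dist x y) := measurable_const.dist measurable_id
    unfold K
    exact (h2.pow_const _).mul (Real.measurable_exp.comp (h2.const_mul _))
  refine (hF.int x).mono hm.aestronglyMeasurable (Eventually.of_forall fun y => ?_)
  rw [Real.norm_of_nonneg (mul_nonneg (K_nonneg s x y) (Real.exp_pos _).le),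
    Real.norm_of_nonneg (K_nonneg s x y)]
  have h1 : Real.exp (-a * dist x y) ≤ 1 :=
    Real.exp_le_one_iff.2 (by have := dist_nonneg (x := x) (y := y); nlinarith)
  have h2 := mul_le_mul_of_nonneg_left h1 (K_nonneg s x y)
  rwa [mul_one] at h2

lemma tail_le (hF : KFacts s d) {C : ℝ} (hC : AvgKExp s d C) {ρ : Measure ℝ}
    [IsProbabilityMeasure ρ] {a : ℝ} (ha : 0 < a) (hρ : ρ (Iio a) = 0) (x : S d) (r : ℝ)
    (hr : 0 ≤ r) :
    ∫ y in {y | r ≤ dist x y}, Kh s ρ x y ∂(sig d) ≤ C * a ^ (s - d) * Real.exp (-a * r / 2) := by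
  refine le_trans ?_ (hC a ha x r hr)
  exact setIntegral_mono (integrable_Kh hF ha.le hρ x).integrableOn
    (integrable_K_exp hF ha.le x).integrableOn fun y => Kh_le hρ x y

lemma A_le (hF : KFacts s d) {C : ℝ} (hC : AvgKExp s d C) {ρ : Measure ℝ}
    [IsProbabilityMeasure ρ] {a : ℝ} (ha : 0 < a) (hρ : ρ (Iio a) = 0) :
    A s d ρ ≤ C * a ^ (s - d) := by
  have h1 := tail_le hF hC ha hρ (north d) 0 le_rfl
  have h2 : {y : S d | 0 ≤ dist (north d) y} = univ := by
    ext y; simp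
  rw [h2, Measure.restrict_univ, integral_Kh] at h1
  simpa using h1

/-- the set of points whose ball of radius `r` lies inside `B` -/
lemma measurableSet_inner {B : Set (S d)} (hB : MeasurableSet B) (r : ℝ) :
    MeasurableSet {x | x ∈ B ∧ Metric.ball x r ⊆ B} := by
  have h1 : {x | x ∈ B ∧ Metric.ball x r ⊆ B} = B ∩ (⋃ y ∈ Bᶜ, Metric.ball y r)ᶜ := by
    ext x
    simp only [mem_ofPred_eq, mem_inter_iff, mem_compl_iff, mem_iUnion, not_exists]
    refine and_congr_right fun _ => ⟨fun h y hy hxy => hy (h ?_), fun h y hy => ?_⟩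
    · rw [Metric.mem_ball'] at hxy ⊢
      rwa [dist_comm]
    · by_contra hcon
      exact h y hcon (by rw [Metric.mem_ball'] at *; rwa [dist_comm])
  rw [h1]
  exact hB.inter (isOpen_biUnion fun _ _ => Metric.isOpen_ball).measurableSet.compl

lemma inner_ge (hF : KFacts s d) {C : ℝ} (hC : AvgKExp s d C) {ρ : Measure ℝ}
    [IsProbabilityMeasure ρ] {a : ℝ} (ha : 0 < a) (hρ : ρ (Iio a) = 0) {B : Set (S d)}
    (hB : MeasurableSet B) (x : S d) (r : ℝ) (hr : 0 ≤ r) (hx : Metric.ball x r ⊆ B) :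
    A s d ρ - C * a ^ (s - d) * Real.exp (-a * r / 2) ≤ ∫ y in B, Kh s ρ x y ∂(sig d) := by
  have hi := integrable_Kh hF ha.le hρ x
  have h1 : ∫ y in Metric.ball x r, Kh s ρ x y ∂(sig d) ≤ ∫ y in B, Kh s ρ x y ∂(sig d) :=
    setIntegral_mono_set hi.integrableOn (Eventually.of_forall fun y => Kh_nonneg ρ x y)
      (LE.le.eventuallyLE hx)
  have h2 := integral_add_compl (μ := sig d) (s := Metric.ball x r) Metric.isOpen_ball.measurableSet hi
  have h3 : (Metric.ball x r)ᶜ = {y | r ≤ dist x y} := by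
    ext y
    simp [Metric.mem_ball, dist_comm]
  rw [h3, integral_Kh] at h2
  have h4 := tail_le hF hC ha hρ x r hr
  linarith

/-- lower bound for the energy of the continuous background inside `B` -/
lemma double_ge (hF : KFacts s d) {C : ℝ} (hC0 : 0 ≤ C) (hC : AvgKExp s d C) {ρ : Measure ℝ}
    [IsProbabilityMeasure ρ] {a : ℝ} (ha : 0 < a) (hρ : ρ (Iio a) = 0) {B : Set (S d)}
    (hB : MeasurableSet B) (r : ℝ) (hr : 0 ≤ r) :
    (sig d).real {x | x ∈ B ∧ Metric.ball x r ⊆ B} * A s d ρ -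
        (sig d).real B * (C * a ^ (s - d) * Real.exp (-a * r / 2)) ≤
      ∫ x in B, ∫ y in B, Kh s ρ x y ∂(sig d) ∂(sig d) := by
  have := hF.prob
  set δ : ℝ := C * a ^ (s - d) * Real.exp (-a * r / 2) with hδ
  have hδ0 : 0 ≤ δ := by positivity
  set Bi : Set (S d) := {x | x ∈ B ∧ Metric.ball x r ⊆ B} with hBi
  have hBim : MeasurableSet Bi := measurableSet_inner hB r
  have hsub : Bi ⊆ B := fun x hx => hx.1
  set G : S d → ℝ := fun x => ∫ y in B, Kh s ρ x y ∂(sig d) with hG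
  have hG0 : ∀ x, 0 ≤ G x := fun x => integral_nonneg fun y => Kh_nonneg ρ x y
  have hGm : StronglyMeasurable G := by
    have h1 : StronglyMeasurable (fun p : S d × S d => Kh s ρ p.1 p.2) :=
      (measurable_Kh ρ).stronglyMeasurable
    exact h1.integral_prod_right (ν := (sig d).restrict B)
  have hGle : ∀ x, G x ≤ A s d ρ := by
    intro x
    rw [← integral_Kh ρ x]
    exact setIntegral_le_integral (integrable_Kh hF ha.le hρ x)
      (Eventually.of_forall fun y => Kh_nonneg ρ x y)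
  have hGi : Integrable G (sig d) := by
    refine Integrable.of_bound hGm.aestronglyMeasurable (A s d ρ) (Eventually.of_forall fun x => ?_)
    rw [Real.norm_of_nonneg (hG0 x)]
    exact hGle x
  have h1 : ∫ x in Bi, G x ∂(sig d) ≤ ∫ x in B, G x ∂(sig d) :=
    setIntegral_mono_set hGi.integrableOn (Eventually.of_forall hG0)
      (LE.le.eventuallyLE hsub)
  have h2 : ∫ _x in Bi, (A s d ρ - δ) ∂(sig d) ≤ ∫ x in Bi, G x ∂(sig d) := by
    refine setIntegral_mono_on (integrable_const _).integrableOn hGi.integrableOn hBim fun x hx => ?_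
    exact inner_ge hF hC ha hρ hB x r hr hx.2
  rw [setIntegral_const, smul_eq_mul] at h2
  have h3 : (sig d).real Bi ≤ (sig d).real B := measureReal_mono hsub
  have h4 := mul_le_mul_of_nonneg_right h3 hδ0
  nlinarith

end Fin1b
end Helper23.Riesz
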