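import Pool.Agent.Helper9.Riesz.Compare
import Pool.Agent.Helper52.Riesz.Geo
import Pool.Agent.Helper52.Riesz.Final1a
import Pool.Agent.Helper92.Riesz.Ker2
import Pool.Agent.Helper93.Riesz.Avg
import Pool.Agent.Helper40.Riesz.Mix

/-!
# Riesz energy on spheres: the limit exists for `0 < s < d` (module FINAL1b)
-/

set_option autoImplicit false
open MeasureTheory Set Filter Topology
open scoped ENNReal NNReal

namespace Helper23.Riesz

variable {s : ℝ} {d : ℕ}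

/-- the comparison of `N` and `N'` -/
theorem compare (hd : 1 ≤ d) (hs : 0 < s) (hsd : s < d) (ε : ℝ) (hε : 0 < ε) :
    ∃ N₀ : ℕ, ∀ N : ℕ, N₀ ≤ N → ∀ᶠ N' : ℕ in atTop,
      (Emin s d N' - (N' : ℝ) ^ 2 * V s d) / (N' : ℝ) ^ (1 + s / d) ≤
        (Emin s d N - (N : ℝ) ^ 2 * V s d) / (N : ℝ) ^ (1 + s / d) + ε := by
  refine Fin1b.compare_of hd hs hsd (geo hd) (fun θ C hθ hθs hC => ?_) (avg_K_exp hd hs hsd) ?_
    (energy_lower hd hs hsd) ε hε
  · exact residual hd hs hsd θ C hθ hθs hC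
  · obtain ⟨c, hc, hc2, C₀, h⟩ := transfer_pow_of hd hs hsd (energy_lower hd hs hsd)
    refine ⟨C₀, fun ρ hρ hρ0 => ?_⟩
    exact transfer_mix hd hs hsd (fun b hb => transfer_exp hd hs hsd hc hc2 h b hb) ρ hρ0

theorem main_pos (hd : 1 ≤ d) (hs : 0 < s) (hsd : s < d) : ∃ C : ℝ,
    Tendsto (fun N : ℕ => (Emin s d N - (N : ℝ) ^ 2 * V s d) / (N : ℝ) ^ (1 + s / d)) atTop
      (𝓝 C) :=
  Fin1b.main_pos_of hd (compare hd hs hsd) (energy_lower hd hs hsd) (energy_upper hd hs hsd)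

end Helper23.Riesz
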